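import Pool.Agent.R490.Adm

set_option autoImplicit false

/-!
# Narrow progressions in arbitrary sets of prime or rough pairs between consecutive cubes
-/

namespace Pool.Agent.Results.MP_d610d0_nt.NarrowProgressions

open Finset Filter

/-- The set of shifts `0, 2` of a pair of twin primes. -/
def H : Finset ℕ := {0, 2}

/-- The `m` for which all prime factors of `m` and `m + 2` exceed `m ^ (1 / r)`. This set contains
all large `m` for which these numbers are primes. -/
def RoughPairs (r : ℕ) : Set ℕ :=
  {m | ∀ h ∈ H, ∀ p : ℕ, p.Prime → p ∣ m + h → (m : ℝ) ^ (1 / (r : ℝ)) < (p : ℝ)}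

/-- `m` is a term of an `l`-term arithmetic progression with difference at most `D`, all terms of which
are elements of `A` strictly between `a` and `b`. -/
def InProgression (A : Set ℕ) (l : ℕ) (D : ℝ) (a b m : ℕ) : Prop :=
  ∃ s d : ℕ, 1 ≤ d ∧ (d : ℝ) ≤ D ∧ (∀ i < l, s + i * d ∈ A ∧ a < s + i * d ∧ s + i * d < b) ∧
    ∃ i < l, m = s + i * d

open Classical in
/-- **Narrow progressions between consecutive cubes.** Let `r, l ≥ 2` and `ε > 0`. There is an exponent `B`
such that for all large `n` and EVERY set `A` of integers `m` such that all prime factors of `m` and `m + 2`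
exceed `m ^ (1 / r)`, for instance every set of large twin primes: all but at most
`ε n ^ 2 / (log n) ^ 2` of the elements of `A` between `n ^ 3` and `(n + 1) ^ 3` are terms of `l`-term
arithmetic progressions, contained in the part of `A` between these powers, with difference at most
`(log n) ^ B`. -/
theorem result (r : ℕ) (hr : 2 ≤ r) (l : ℕ) (hl : 2 ≤ l) (ε : ℝ) (hε : 0 < ε) :
    ∃ B : ℕ, ∀ᶠ n : ℕ in atTop, ∀ A : Set ℕ, A ⊆ RoughPairs r →
        (((Ioo (n ^ 3) ((n + 1) ^ 3)).filter (fun m : ℕ =>
          m ∈ A ∧ ¬ InProgression A l (Real.log n ^ B) (n ^ 3) ((n + 1) ^ 3) m)).card : ℝ) ≤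
        ε * (n ^ 2 / Real.log n ^ 2) := by
  obtain ⟨B, hB⟩ := Pool.Agent.R490.Tu.narPow H ⟨0, by decide⟩ Pool.Agent.R490.Tu.adm_tw 3 (by norm_num)
    r hr l hl ε hε
  refine ⟨B, ?_⟩
  filter_upwards [hB] with n hn A hA
  exact hn A (fun m hm => hA hm)

end Pool.Agent.Results.MP_d610d0_nt.NarrowProgressions
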