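import Pool.Agent.R490.Adm

set_option autoImplicit false

/-!
# Regular points of arbitrary sets of prime or rough pairs between consecutive cubes
-/

namespace Pool.Agent.Results.MP_d610d0_nt.RegularPoints

open Finset Filter

/-- The set of shifts `0, 2` of a pair of twin primes. -/
def H : Finset ℕ := {0, 2}

/-- No `m + h`, `h ∈ H`, has a prime factor `≤ y`. -/
def RoughPair (y m : ℕ) : Prop := ∀ p : ℕ, p.Prime → p ≤ y → ∀ h ∈ H, ¬ p ∣ m + h

open Classical in
/-- The density of these `m`: the product of `1 - w(p) / p` over the primes `p ≤ y`, where `w(p)` is the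
number of the residues `m` modulo `p` with `p ∣ m + h` for some `h ∈ H`. -/
noncomputable def V (y : ℕ) : ℝ := ∏ p ∈ (Finset.range (y + 1)).filter Nat.Prime,
    (1 - (((Finset.range p).filter (fun m : ℕ => ∃ h ∈ H, p ∣ m + h)).card : ℝ) / p)

open Classical in
/-- The number of elements of `S` in `(a, b]`. -/
noncomputable def count (S : Set ℕ) (a b : ℕ) : ℕ := ((Finset.Ioc a b).filter (fun m => m ∈ S)).card

/-- All intervals `(m - s, m + t]` with `s, t ≤ Y` of length at least `L / κ` contain between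
`κ (s + t) / L` and `(s + t) / (κ L)` elements of `S`. -/
def RightOrder (S : Set ℕ) (L κ : ℝ) (Y m : ℕ) : Prop :=
  ∀ s t : ℕ, s ≤ Y → t ≤ Y → L ≤ κ * (s + t) →
    κ * (s + t) / L ≤ count S (m - s) (m + t) ∧ (count S (m - s) (m + t) : ℝ) ≤ (s + t) / (κ * L)

/-- Up to `δ`, `S` has a constant density on both sides of `m` up to the distance `2 ^ j`. -/
def ConstantDensity (S : Set ℕ) (L κ δ : ℝ) (m j : ℕ) : Prop :=
  ∃ lam : ℝ, κ ≤ lam ∧ lam ≤ 1 / κ ∧ ∀ s t : ℕ, s ≤ 2 ^ j → t ≤ 2 ^ j →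
    |(count S (m - s) (m + t) : ℝ) - lam * (s + t) / L| ≤ δ * 2 ^ j / L

open Classical in
/-- The number of the scales `L ≤ 2 ^ j ≤ Y` without this property. -/
noncomputable def badScales (S : Set ℕ) (L κ δ : ℝ) (Y m : ℕ) : ℕ :=
  ((Finset.range (Nat.log 2 Y + 1)).filter (fun j => L ≤ (2 : ℝ) ^ j ∧ ¬ ConstantDensity S L κ δ m j)).card

/-- The elements of `S` that are not regular points of `S`. -/
def Irregular (S : Set ℕ) (L κ δ : ℝ) (M Y : ℕ) : Set ℕ :=
  {m | m ∈ S ∧ ¬ (RightOrder S L κ Y m ∧ badScales S L κ δ Y m ≤ M)}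

open Classical in
/-- **Regular points between consecutive cubes.** There is `r0` such that for `r ≥ r0` and `ε > 0` there
is `κ > 0`, and for `δ > 0` there is `M`, such that for all large `n`, with `y = n ^ (3 / r)`, and EVERY set `S`
of integers `m` for which `m` and `m + 2` have no prime factor `≤ y`, for instance the set of
all `m` for which these are primes `> y`: all but at most `ε n ^ 2 V` of the elements of `S` between `n ^ 3`
and `(n + 1) ^ 3` are regular points of `S`: with `N = (n + 1) ^ 3 - 1 - n ^ 3`, all intervals around them of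
length at least `1 / (κ V)` and at most `N` to each side contain the right order of elements of `S`, and `S`
has a constant density up to `δ` around them at all but `M` dyadic scales. -/
theorem result :
    ∃ r0 : ℕ, 2 ≤ r0 ∧ ∀ r : ℕ, r0 ≤ r → ∀ ε : ℝ, 0 < ε → ∃ κ : ℝ, 0 < κ ∧
      ∀ δ : ℝ, 0 < δ → ∃ M : ℕ, ∀ᶠ n : ℕ in atTop,
      ∀ S : Set ℕ, (∀ m ∈ S, RoughPair ⌊((n ^ 3 : ℕ) : ℝ) ^ (1 / (r : ℝ))⌋₊ m) →
        (((Ioo (n ^ 3) ((n + 1) ^ 3)).filter (fun m => m ∈ Irregular S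
          (1 / V ⌊((n ^ 3 : ℕ) : ℝ) ^ (1 / (r : ℝ))⌋₊) κ δ M ((n + 1) ^ 3 - 1 - n ^ 3))).card : ℝ) ≤
          ε * (n ^ 2 * V ⌊((n ^ 3 : ℕ) : ℝ) ^ (1 / (r : ℝ))⌋₊) := by
  obtain ⟨r0, hr0, h0⟩ := Pool.Agent.R490.Tu.regPow 2 3 (by norm_num) (by norm_num)
  refine ⟨r0, hr0, fun r hr ε hε => ?_⟩
  obtain ⟨κ, hκ, h1⟩ := h0 r hr ε hε
  refine ⟨κ, hκ, fun δ hδ => ?_⟩
  obtain ⟨M, h2⟩ := h1 δ hδ
  refine ⟨M, ?_⟩
  filter_upwards [h2, eventually_ge_atTop 10] with n hn hn1
  intro S hS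
  exact hn H (by decide) (fun h hh => by
    have e : ∀ h ∈ H, h ≤ 10 := by decide
    exact (e h hh).trans (hn1.trans (Nat.le_self_pow (by norm_num) n))) Pool.Agent.R490.Tu.adm_tw S hS

end Pool.Agent.Results.MP_d610d0_nt.RegularPoints
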