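import Mathlib
import Pool.Agent.R960.Fam.Pow

set_option autoImplicit false

/-!
# Twin pairs between consecutive cubes in random models of the primes

The integers are decided one after the other; no independence is assumed.  Fix a finite set `Q` of
primes; multiples of the primes of `Q` are never chosen and the other integers `n + 1` are chosen with
conditional probability `(1 + o(1)) ∏_{p ∈ Q} (1 - 1/p)⁻¹ / log n`.  Let `T(n)` be the number of pairs
`(m, m + 2)` of chosen integers strictly between `n^3` and `(n + 1)^3`.  Then almost surely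
`T(n) ~ (𝔖 / 3) n² / (log n)²` with `𝔖 = ∏_{p ∈ Q} (1 - ν(p)/p) / (1 - 1/p)² > 0`, `ν(2) = 1`,
`ν(p) = 2` otherwise, and the number of pairs in `(y, y + h]` is `(𝔖 + o(1)) h / (log y)²`, uniformly in
`(log y)⁶ ≤ h ≤ y`.
-/

open MeasureTheory Filter
open scoped Topology

namespace Pool.Agent.Results.MP_d610d0_nt.TwinsInSievedModels

/-- the conditional probability that `n + 1` is chosen, given the information up to `n` -/
noncomputable def density {Ω : Type} {mΩ : MeasurableSpace Ω} (μ : Measure Ω) (ℱ : Filtration ℕ mΩ)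
    (A : ℕ → Set Ω) (n : ℕ) : Ω → ℝ := μ[(A (n + 1)).indicator (fun _ => (1 : ℝ)) | ℱ n]

/-- the number of pairs `(m, m + 2)` of elements of `S` strictly between `n^3` and `(n + 1)^3` -/
noncomputable def betweenCubes (S : Set ℕ) (n : ℕ) : ℕ :=
  {m : ℕ | m ∈ S ∧ m + 2 ∈ S ∧ n ^ 3 < m ∧ m + 2 < (n + 1) ^ 3}.ncard

/-- the number of `m` in `(y, y + h]` with `m` and `m + 2` in `S` -/
noncomputable def pairs (S : Set ℕ) (y h : ℕ) : ℕ :=
  {m : ℕ | (y < m ∧ m ≤ y + h) ∧ m ∈ S ∧ m + 2 ∈ S}.ncard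

/-- the Hardy and Littlewood factors of the primes of `Q` for the twin pattern -/
noncomputable def twinFactor (Q : Finset ℕ) : ℝ :=
  ∏ p ∈ Q, (1 - (if p = 2 then 1 else 2) / (p : ℝ)) / (1 - 1 / (p : ℝ)) ^ 2

lemma occ_pair {p : ℕ} (hp : p.Prime) : Pool.Agent.R528.RM.occ {0, 2} p = if p = 2 then 1 else 2 := by
  unfold Pool.Agent.R528.RM.occ
  split_ifs with h
  · subst h
    decide
  · have h3 : 3 ≤ p := by
      have := hp.two_le
      omega
    rw [Finset.image_insert, Finset.image_singleton, Nat.zero_mod, Nat.mod_eq_of_lt (by omega : 2 < p)]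
    rfl

lemma sing_eq (Q : Finset ℕ) (hQ : ∀ p ∈ Q, p.Prime) : Pool.Agent.R528.RM.singH Q {0, 2} = twinFactor Q := by
  unfold Pool.Agent.R528.RM.singH twinFactor
  refine Finset.prod_congr rfl fun p hp => ?_
  rw [occ_pair (hQ p hp)]
  rw [show ({0, 2} : Finset ℕ).card = 2 from rfl]
  split_ifs <;> norm_num

lemma twin_pos (Q : Finset ℕ) (hQ : ∀ p ∈ Q, p.Prime) : 0 < twinFactor Q := by
  refine Finset.prod_pos fun p hp => ?_
  have h2 : (2 : ℝ) ≤ p := by exact_mod_cast (hQ p hp).two_le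
  have hp0 : (0 : ℝ) < p := by linarith
  have h3 : 0 < 1 - 1 / (p : ℝ) := by
    rw [sub_pos, div_lt_one hp0]
    linarith
  refine div_pos ?_ (by positivity)
  split_ifs with h
  · rw [h]
    norm_num
  · have h4 : (3 : ℝ) ≤ p := by
      have := (hQ p hp).two_le
      exact_mod_cast (by omega : 3 ≤ p)
    rw [sub_pos, div_lt_one hp0]
    linarith

lemma pairs_eq (S : Set ℕ) (y h : ℕ) : pairs S y h = Pool.Agent.R960.Fam.cntI S {0, 2} y h := by
  unfold pairs Pool.Agent.R960.Fam.cntI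
  congr 1
  ext m
  simp

lemma between_eq (S : Set ℕ) {n : ℕ} (hn : 1 ≤ n) :
    betweenCubes S n = Pool.Agent.R960.Fam.cntI S {0, 2} (n ^ 3) (3 * n ^ 2 + 3 * n - 2) := by
  unfold betweenCubes Pool.Agent.R960.Fam.cntI
  congr 1
  ext m
  have h1 : (n + 1) ^ 3 = n ^ 3 + 3 * n ^ 2 + 3 * n + 1 := by ring
  have h2 : 1 ≤ n ^ 2 := Nat.one_le_pow _ _ hn
  simp only [Finset.mem_insert, Finset.mem_singleton, forall_eq_or_imp, forall_eq, Nat.add_zero, Set.mem_ofPred_eq]
  constructor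
  · rintro ⟨a, b, c, d⟩
    exact ⟨⟨c, by omega⟩, a, b⟩
  · rintro ⟨⟨c, d⟩, a, b⟩
    exact ⟨a, b, c, by omega⟩

end Pool.Agent.Results.MP_d610d0_nt.TwinsInSievedModels

open Pool.Agent.Results.MP_d610d0_nt.TwinsInSievedModels

theorem Pool.Agent.Results.MP_d610d0_nt.TwinsInSievedModels.result
    {Ω : Type} [mΩ : MeasurableSpace Ω] (μ : Measure Ω) [IsProbabilityMeasure μ]
    (ℱ : Filtration ℕ mΩ) (A : ℕ → Set Ω) (hA : ∀ n, MeasurableSet[ℱ n] (A n))
    (Q : Finset ℕ) (hQ : ∀ p ∈ Q, p.Prime) (hcop : ∀ n, (∃ p ∈ Q, p ∣ n) → A n = ∅)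
    (hd : ∀ᵐ ω ∂μ, Tendsto (fun n : ℕ => density μ ℱ A n ω * Real.log n)
        (atTop ⊓ 𝓟 {n : ℕ | ∀ p ∈ Q, ¬ p ∣ n + 1}) (𝓝 (∏ p ∈ Q, (1 - 1 / (p : ℝ))⁻¹))) :
    0 < twinFactor Q ∧
    ∀ᵐ ω ∂μ,
      Tendsto (fun n : ℕ => (betweenCubes {a | ω ∈ A a} n : ℝ) * Real.log n ^ 2 / (n : ℝ) ^ 2) atTop
        (𝓝 (twinFactor Q / 3)) ∧
      Tendsto (fun n : ℕ => betweenCubes {a | ω ∈ A a} n) atTop atTop ∧
      ∀ ε : ℝ, 0 < ε → ∀ᶠ y : ℕ in atTop, ∀ h : ℕ, h ≤ y → Real.log y ^ 6 ≤ h →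
        |(pairs {a | ω ∈ A a} y h : ℝ) * Real.log y ^ 2 / h - twinFactor Q| ≤ ε := by
  refine ⟨twin_pos Q hQ, ?_⟩
  filter_upwards [Pool.Agent.R960.Fam.int_law (μ := μ) hA Q hQ hcop hd] with ω hω
  have hL : Pool.Agent.R960.Fam.Law {a | ω ∈ A a} Q {0, 2} := hω {0, 2}
  have hg : Tendsto (fun n : ℕ => ((3 * n ^ 2 + 3 * n - 2 : ℕ) : ℝ) / (n : ℝ) ^ (3 - 1)) atTop (𝓝 3) := by
    have h1 : Tendsto (fun n : ℕ => 3 + 3 * (1 / (n : ℝ)) - 2 * (1 / (n : ℝ)) * (1 / (n : ℝ))) atTop (𝓝 (3 + 3 * 0 - 2 * 0 * 0)) := by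
      have h0 := tendsto_one_div_atTop_nhds_zero_nat (𝕜 := ℝ)
      exact (tendsto_const_nhds.add (h0.const_mul 3)).sub ((h0.const_mul 2).mul h0)
    rw [show (3 : ℝ) + 3 * 0 - 2 * 0 * 0 = 3 by norm_num] at h1
    refine h1.congr' ?_
    filter_upwards [eventually_ge_atTop 1] with n hn
    have hn0 : (0 : ℝ) < n := by exact_mod_cast (by omega : 0 < n)
    have h2 : 2 ≤ 3 * n ^ 2 + 3 * n := by nlinarith
    rw [Nat.cast_sub h2]
    push_cast
    field_simp
  have h1 := Pool.Agent.R960.Fam.pow_lim hL (e := 3) (by norm_num) (L := 3) (by norm_num) hg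
  rw [sing_eq Q hQ] at h1
  have h2 : Tendsto (fun n : ℕ => (betweenCubes {a | ω ∈ A a} n : ℝ) * Real.log n ^ 2 / (n : ℝ) ^ 2) atTop
        (𝓝 (twinFactor Q / 3)) := by
    have e1 : twinFactor Q * 3 / ((3 : ℕ) : ℝ) ^ ({0, 2} : Finset ℕ).card = twinFactor Q / 3 := by
      rw [show ({0, 2} : Finset ℕ).card = 2 from rfl]
      push_cast
      ring
    rw [e1] at h1
    refine h1.congr' ?_
    filter_upwards [eventually_ge_atTop 1] with n hn
    rw [between_eq _ hn]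
    rfl
  refine ⟨h2, ?_, ?_⟩
  · have h3 : Tendsto (fun n : ℕ => (n : ℝ) ^ 2 / Real.log n ^ 2) atTop atTop := by
      rw [tendsto_atTop]
      intro K
      have h4 := Pool.Agent.R960.Fam.log_pow_le 2 (show (0 : ℝ) < 1 / (|K| + 1) by positivity)
      filter_upwards [h4, eventually_gt_atTop 1] with n hn hn1
      have hn' : (1 : ℝ) < n := by exact_mod_cast hn1
      have hl : 0 < Real.log (n : ℝ) := Real.log_pos hn'
      rw [le_div_iff₀ (by positivity)]
      have h5 : (|K| + 1) * Real.log n ^ 2 ≤ n := by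
        have := mul_le_mul_of_nonneg_left hn (show (0 : ℝ) ≤ |K| + 1 by positivity)
        rwa [← mul_assoc, mul_one_div_cancel (by positivity), one_mul] at this
      have h6 : K * Real.log n ^ 2 ≤ (|K| + 1) * Real.log n ^ 2 :=
        mul_le_mul_of_nonneg_right (by linarith [le_abs_self K]) (by positivity)
      nlinarith
    have h4 : Tendsto (fun n : ℕ => (betweenCubes {a | ω ∈ A a} n : ℝ)) atTop atTop := by
      have h5 := h2.pos_mul_atTop (by have := twin_pos Q hQ; positivity) h3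
      refine h5.congr' ?_
      filter_upwards [eventually_gt_atTop 1] with n hn1
      have hn' : (1 : ℝ) < n := by exact_mod_cast hn1
      have hl : 0 < Real.log (n : ℝ) := Real.log_pos hn'
      field_simp
    exact tendsto_natCast_atTop_iff.1 h4
  · intro ε hε
    filter_upwards [hL ε hε] with y hy h h1 h2
    have h3 := hy h h1 h2
    rw [sing_eq Q hQ] at h3
    rw [pairs_eq]
    exact h3
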